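import Pool.Agent.Y291.PA.Final

/-!
# Half of the discs have a bounded doubling index: no condition on the number of discs
-/

set_option autoImplicit false
set_option linter.unusedSectionVars false
set_option linter.unusedVariables false

namespace Pool.Agent.Y291.PH

open MeasureTheory Real Pool.Agent.Y291.DB Pool.Agent.Y291.PA

/-- An integer of absolute value less than one vanishes. -/
theorem int_zero {a : ℤ} (h : |(a : ℝ)| < 1) : a = 0 := by
  have h1 : |a| < 1 := by exact_mod_cast h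
  exact Int.abs_lt_one_iff.1 h1

/-- The grid argument in one direction. -/
theorem grid_inj {s P : ℝ} (hs : 0 < s) (hP : s ≤ P / 2) {j j' : ℕ} (hj : (j : ℝ) * s ≤ P / 2)
    (hj' : (j' : ℝ) * s ≤ P / 2) {m m' : ℤ}
    (h : |((j : ℝ) * s + m * P) - ((j' : ℝ) * s + m' * P)| < s) : m = m' ∧ j = j' := by
  have hj0 : 0 ≤ (j : ℝ) * s := by positivity
  have hj0' : 0 ≤ (j' : ℝ) * s := by positivity
  have hP0 : 0 < P := by linarith
  rw [abs_lt] at h
  have hm : m = m' := by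
    have h1 : |((m - m' : ℤ) : ℝ)| < 1 := by
      rw [abs_lt]
      push_cast
      constructor
      · by_contra hc
        push Not at hc
        have : ((m : ℝ) - m') * P ≤ -1 * P := mul_le_mul_of_nonneg_right hc hP0.le
        nlinarith [h.1]
      · by_contra hc
        push Not at hc
        have : 1 * P ≤ ((m : ℝ) - m') * P := mul_le_mul_of_nonneg_right hc hP0.le
        nlinarith [h.2]
    have := int_zero h1
    omega
  refine ⟨hm, ?_⟩
  rw [hm] at h
  have h1 : |(((j : ℤ) - (j' : ℤ) : ℤ) : ℝ)| < 1 := by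
    rw [abs_lt]
    push_cast
    constructor
    · by_contra hc
      push Not at hc
      have : ((j : ℝ) - j') * s ≤ -1 * s := mul_le_mul_of_nonneg_right hc hs.le
      nlinarith [h.1]
    · by_contra hc
      push Not at hc
      have : 1 * s ≤ ((j : ℝ) - j') * s := mul_le_mul_of_nonneg_right hc hs.le
      nlinarith [h.2]
  have := int_zero h1
  omega

/-- A covering by discs of radius `C / √lam` has at least `(1 + lam) / b` members. -/
theorem card_lower {ρ : ℝ × ℝ → ℝ} {L α ρm C : ℝ} (hL : 0 < L) (hρc : Continuous ρ)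
    (hρ0 : 0 < ρm) (hρm : ∀ p, ρm ≤ ρ p) (hC : 0 < C) : ∃ b : ℝ, 0 < b ∧ ∀ lam : ℝ, 0 < lam →
      ∀ (ι : Type) [Fintype ι] (c : ι → ℝ × ℝ),
        (∀ q : ℝ × ℝ, ∃ i, q ∈ disc ρ L α (c i) (C / Real.sqrt lam)) →
        1 + lam ≤ b * Fintype.card ι := by
  have hπ := Real.pi_pos
  have hsm : 0 < Real.sqrt ρm := Real.sqrt_pos.2 hρ0
  set P : ℝ := min (L / 2) π with hP
  have hP0 : 0 < P := lt_min (by positivity) hπ
  set l0 : ℝ := (3 * C / (Real.sqrt ρm * P)) ^ 2 with hl0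
  have hl00 : 0 ≤ l0 := by positivity
  refine ⟨1 + l0 + 18 * C ^ 2 / (L * π * ρm), by positivity, ?_⟩
  intro lam hlam ι _ c hcov
  have hsl : 0 < Real.sqrt lam := Real.sqrt_pos.2 hlam
  have hcard1 : (1 : ℝ) ≤ Fintype.card ι := by
    obtain ⟨i, -⟩ := hcov (0, 0)
    have : 0 < Fintype.card ι := Fintype.card_pos_iff.2 ⟨i⟩
    exact_mod_cast this
  set R : ℝ := C / Real.sqrt lam / Real.sqrt ρm with hR
  have hR0 : 0 < R := by positivity
  set s : ℝ := 3 * R with hs
  have hs0 : 0 < s := by positivity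
  have hs2 : s ^ 2 = 9 * C ^ 2 / (lam * ρm) := by
    rw [hs, hR]
    have h1 : Real.sqrt lam ^ 2 = lam := Real.sq_sqrt hlam.le
    have h2 : Real.sqrt ρm ^ 2 = ρm := Real.sq_sqrt hρ0.le
    calc (3 * (C / Real.sqrt lam / Real.sqrt ρm)) ^ 2 =
        9 * C ^ 2 / (Real.sqrt lam ^ 2 * Real.sqrt ρm ^ 2) := by
          field_simp
          ring
      _ = _ := by rw [h1, h2]
  have hx0 : 0 ≤ 18 * C ^ 2 / (L * π * ρm) := by positivity
  rcases le_or_gt s P with hsP | hsP
  · have hsL : s ≤ L / 2 := hsP.trans (min_le_left _ _)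
    have hsπ : s ≤ (2 * π) / 2 := by
      have := hsP.trans (min_le_right _ _)
      linarith
    set m1 : ℕ := ⌊L / 2 / s⌋₊ with hm1
    set m2 : ℕ := ⌊π / s⌋₊ with hm2
    have hm1' : (m1 : ℝ) * s ≤ L / 2 := by
      have := Nat.floor_le (show 0 ≤ L / 2 / s by positivity)
      calc (m1 : ℝ) * s ≤ L / 2 / s * s := mul_le_mul_of_nonneg_right this hs0.le
        _ = L / 2 := by field_simp
    have hm2' : (m2 : ℝ) * s ≤ (2 * π) / 2 := by
      have := Nat.floor_le (show 0 ≤ π / s by positivity)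
      calc (m2 : ℝ) * s ≤ π / s * s := mul_le_mul_of_nonneg_right this hs0.le
        _ = (2 * π) / 2 := by field_simp
    have hle : ∀ (M j : ℕ) (X : ℝ), j < M + 1 → (M : ℝ) * s ≤ X → (j : ℝ) * s ≤ X := by
      intro M j X hj hX
      refine le_trans (mul_le_mul_of_nonneg_right ?_ hs0.le) hX
      exact_mod_cast Nat.lt_succ_iff.1 hj
    choose f hf using fun g : Fin (m1 + 1) × Fin (m2 + 1) =>
      hcov ((g.1.val : ℝ) * s, (g.2.val : ℝ) * s)
    have hinj : Function.Injective f := by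
      rintro ⟨j, k⟩ ⟨j', k'⟩ h
      obtain ⟨m, n, h1, h2⟩ := gdist_lt hρ0 hρm hρc (hf (j, k))
      obtain ⟨m', n', h3, h4⟩ := gdist_lt hρ0 hρm hρc (hf (j', k'))
      rw [← h] at h3 h4
      simp only at h1 h2 h3 h4
      rw [← hR] at h1 h2 h3 h4
      have e1 : |((j.val : ℝ) * s + m * L) - ((j'.val : ℝ) * s + m' * L)| < s := by
        have h1' := abs_le.1 h1
        have h3' := abs_le.1 h3
        rw [abs_lt]
        constructor <;> linarith [h1'.1, h1'.2, h3'.1, h3'.2]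
      obtain ⟨hmm, hjj⟩ := grid_inj hs0 hsL (hle _ _ _ j.2 hm1') (hle _ _ _ j'.2 hm1') e1
      have e2 : |((k.val : ℝ) * s + n * (2 * π)) - ((k'.val : ℝ) * s + n' * (2 * π))| < s := by
        rw [← hmm] at h4
        have h2' := abs_le.1 h2
        have h4' := abs_le.1 h4
        rw [abs_lt]
        constructor <;> linarith [h2'.1, h2'.2, h4'.1, h4'.2]
      obtain ⟨-, hkk⟩ := grid_inj hs0 hsπ (hle _ _ _ k.2 hm2') (hle _ _ _ k'.2 hm2') e2
      exact Prod.ext (Fin.ext hjj) (Fin.ext hkk)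
    have hcard : (m1 + 1) * (m2 + 1) ≤ Fintype.card ι := by
      have := Fintype.card_le_of_injective f hinj
      simpa using this
    have hcardR : ((m1 : ℝ) + 1) * ((m2 : ℝ) + 1) ≤ Fintype.card ι := by exact_mod_cast hcard
    have h5 : L / 2 / s ≤ (m1 : ℝ) + 1 := (Nat.lt_floor_add_one _).le
    have h6 : π / s ≤ (m2 : ℝ) + 1 := (Nat.lt_floor_add_one _).le
    have h7 : L / 2 / s * (π / s) ≤ Fintype.card ι :=
      (mul_le_mul h5 h6 (by positivity) (by positivity)).trans hcardR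
    have h8 : L / 2 / s * (π / s) = lam * (L * π * ρm / (18 * C ^ 2)) := by
      have : L / 2 / s * (π / s) = L * π / (2 * s ^ 2) := by
        field_simp
      rw [this, hs2]
      field_simp
      ring
    rw [h8] at h7
    have h9 : lam ≤ 18 * C ^ 2 / (L * π * ρm) * Fintype.card ι := by
      calc lam = 18 * C ^ 2 / (L * π * ρm) * (lam * (L * π * ρm / (18 * C ^ 2))) := by
            field_simp
        _ ≤ _ := mul_le_mul_of_nonneg_left h7 hx0
    nlinarith
  · have h1 : lam ≤ l0 := by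
      have h2 : P < 3 * C / Real.sqrt ρm / Real.sqrt lam := by
        refine hsP.trans_le (le_of_eq ?_)
        rw [hs, hR]
        field_simp
      have h3 : Real.sqrt lam < 3 * C / (Real.sqrt ρm * P) := by
        rw [lt_div_iff₀ hsl] at h2
        rw [lt_div_iff₀ (by positivity)]
        have h4 : P * Real.sqrt lam * Real.sqrt ρm < 3 * C / Real.sqrt ρm * Real.sqrt ρm :=
          mul_lt_mul_of_pos_right h2 hsm
        rw [div_mul_cancel₀ _ hsm.ne'] at h4
        linarith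
      calc lam = Real.sqrt lam ^ 2 := (Real.sq_sqrt hlam.le).symm
        _ ≤ l0 := by
            rw [hl0]
            exact pow_le_pow_left₀ hsl.le h3.le 2
    nlinarith

section count

variable {ρ : ℝ × ℝ → ℝ} {L α ρm ρM : ℝ} (hL : 0 < L) (hρc : Continuous ρ)
  (hρx : ∀ p : ℝ × ℝ, ρ (p.1 + L, p.2 + α) = ρ p) (hρy : ∀ p : ℝ × ℝ, ρ (p.1, p.2 + 2 * π) = ρ p)
  (hρ0 : 0 < ρm) (hρm : ∀ p, ρm ≤ ρ p) (hρM : ∀ p, ρ p ≤ ρM) {C : ℝ} (hC : 0 < C)
  {β A : ℝ} (hβ : 0 < β) (hβ1 : β ≤ 1) (hβC : 8 * β * Real.sqrt ρM ≤ C)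
  (hA : 6 * C / Real.sqrt ρm + 3 * L + 6 * π ≤ A)

include hL hρc hρx hρy hρ0 hρm hρM hC hβ hβ1 hβC hA

/-- Counting the discs with a large doubling index. -/
theorem count' {lam : ℝ} {φ : ℝ × ℝ → ℝ} (hφ : Eigen ρ L α lam φ) {E D W G : ℝ} (hD : 0 < D)
    (hW : 0 ≤ W) {Gr : ℝ → ℝ → ℝ} (hG : Growth φ lam β A E D W G Gr) {C₁ : ℝ} (hC1 : 0 < C₁)
    {ι : Type} [Fintype ι] {c : ι → ℝ × ℝ} 
    (hmult : ∀ q : ℝ × ℝ, ({i | q ∈ disc ρ L α (c i) (C / Real.sqrt lam)}.ncard : ℝ) ≤ C₁) {t : ℝ}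
    (ht : 0 < t) (htE : 2 * E ≤ t * Real.log 2) :
    (({i | t ≤ doubling ρ L α φ (c i) (C / Real.sqrt lam)}.ncard : ℕ) : ℝ) ≤
      (L + 2) * C₁ * W * (2 * D) * (1 + lam) / (β ^ 2 * (t * Real.log 2)) := by
  classical
  have hlog : 0 < Real.log 2 := Real.log_pos one_lt_two
  have hδ := dl_pos hφ.pos
  have hδ2 := dl_le hφ.pos
  have hlam := hφ.pos
  have hπ : 3 < π := Real.pi_gt_three
  -- reduced centers
  have hred : ∀ i, ∃ p : ℝ × ℝ, p.1 ∈ Set.Ico 0 L ∧ p.2 ∈ Set.Ico 0 (2 * π) ∧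
      ∀ q, gdist ρ L α p q = gdist ρ L α (c i) q := by
    intro i
    obtain ⟨m, n, h1, h2⟩ := reduce hL α 0 0 (c i)
    rw [zero_add] at h1 h2
    exact ⟨_, h1, h2, fun q => gdist_shift_left (per_all hρx hρy) (c i) q m n⟩
  choose p hp1 hp2 hp3 using hred
  have hdisc : ∀ i r, disc ρ L α (p i) r = disc ρ L α (c i) r := by
    intro i r
    unfold disc
    simp only [hp3]
  have hdoub : ∀ i r, doubling ρ L α φ (p i) r = doubling ρ L α φ (c i) r := by
    intro i r
    unfold doubling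
    simp only [hdisc]
  set I : Set ι := {i | t ≤ doubling ρ L α φ (c i) (C / Real.sqrt lam)} with hI
  have hX : ∀ i ∈ I, ∃ X : Set ℝ, MeasurableSet X ∧
      X ⊆ Set.Icc ((p i).1 - 2 * β * dl lam) ((p i).1 + 2 * β * dl lam) ∧
      ENNReal.ofReal (2 * β * dl lam) ≤ volume X ∧
      ∀ x ∈ X, ∀ y, |y - (p i).2| ≤ β * dl lam → t * Real.log 2 / (2 * D) ≤ Gr x y := by
    intro i hi
    have hi' : t ≤ doubling ρ L α φ (p i) (C / Real.sqrt lam) := by
      rw [hdoub]
      exact hi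
    obtain ⟨X, h1, h2, h3, h4⟩ := doubling_le hL hρc hρx hρy hρ0 hρm hρM hC hβ hβ1 hβC hA hφ hG
      (p i) (ht.trans_le hi')
    refine ⟨X, h1, h2, h3, fun x hx y hy => ?_⟩
    have h5 := h4 x hx y hy
    have h6 : t * Real.log 2 ≤ doubling ρ L α φ (p i) (C / Real.sqrt lam) * Real.log 2 :=
      mul_le_mul_of_nonneg_right hi' hlog.le
    rw [div_le_iff₀ (by positivity)]
    linarith
  choose! X hX1 hX2 hX3 hX4 using hX
  set s : ℝ := t * Real.log 2 / (2 * D) with hs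
  have hs0 : 0 < s := by positivity
  set IF : Finset ι := Finset.univ.filter (· ∈ I) with hIF
  have hIFmem : ∀ i, i ∈ IF ↔ i ∈ I := fun i => by simp [hIF]
  set J : ι → Set ℝ := fun i => Set.Icc ((p i).2 - β * dl lam) ((p i).2 + β * dl lam) with hJ
  have hβδ : β * dl lam ≤ 1 / 2 := by nlinarith
  -- the inner bound
  have hin : ∀ x : ℝ, ∑ i ∈ IF, (X i).indicator (fun _ => volume (J i)) x ≤
      ENNReal.ofReal C₁ * ENNReal.ofReal (W / s) := by
    intro x
    set N : Set ℝ := {y : ℝ | y ∈ Set.Ioc (-(2 * π)) (4 * π) ∧ s ≤ Gr x y} with hN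
    have h1 : ∑ i ∈ IF, (X i).indicator (fun _ => volume (J i)) x =
        ∫⁻ y, ∑ i ∈ IF, (X i).indicator (fun _ => (J i).indicator (fun _ => (1 : ENNReal)) y) x := by
      rw [lintegral_finsetSum]
      · refine Finset.sum_congr rfl fun i _ => ?_
        by_cases hx : x ∈ X i
        · simp only [Set.indicator_of_mem hx]
          rw [lintegral_indicator measurableSet_Icc, setLIntegral_one]
        · simp only [Set.indicator_of_notMem hx, lintegral_zero]
      · intro i _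
        by_cases hx : x ∈ X i
        · simp only [Set.indicator_of_mem hx]
          exact measurable_const.indicator measurableSet_Icc
        · simp only [Set.indicator_of_notMem hx]
          exact measurable_const
    rw [h1]
    refine le_trans (lintegral_mono (g := N.indicator fun _ => ENNReal.ofReal C₁) fun y => ?_)
      ((lintegral_indicator_const_le _ _).trans ?_)
    · -- multiplicity
      have h2 : ∑ i ∈ IF, (X i).indicator (fun _ => (J i).indicator (fun _ => (1 : ENNReal)) y) x =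
          ((IF.filter fun i => x ∈ X i ∧ y ∈ J i).card : ENNReal) := by
        rw [Finset.card_filter]
        push_cast
        refine Finset.sum_congr rfl fun i _ => ?_
        by_cases hx : x ∈ X i <;> by_cases hy : y ∈ J i <;> simp [hx, hy]
      rw [h2]
      rcases (IF.filter fun i => x ∈ X i ∧ y ∈ J i).eq_empty_or_nonempty with h3 | h3
      · rw [h3]
        simp
      · obtain ⟨i, hi⟩ := h3
        rw [Finset.mem_filter, hIFmem] at hi
        have hyJ : |y - (p i).2| ≤ β * dl lam := by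
          have h4 := hi.2.2
          rw [abs_le]
          constructor <;> linarith [h4.1, h4.2]
        have hyN : y ∈ N := by
          refine ⟨⟨?_, ?_⟩, hX4 i hi.1 x hi.2.1 y hyJ⟩
          · linarith [(hp2 i).1, (abs_le.1 hyJ).1]
          · linarith [(hp2 i).2, (abs_le.1 hyJ).2]
        rw [Set.indicator_of_mem hyN]
        have h5 : ((IF.filter fun i => x ∈ X i ∧ y ∈ J i).card : ℝ) ≤ C₁ := by
          refine le_trans ?_ (hmult (x, y))
          have h6 : ((IF.filter fun i => x ∈ X i ∧ y ∈ J i) : Set ι) ⊆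
              {i | (x, y) ∈ disc ρ L α (c i) (C / Real.sqrt lam)} := by
            intro j hj
            rw [Finset.mem_coe, Finset.mem_filter, hIFmem] at hj
            show (x, y) ∈ disc ρ L α (c j) (C / Real.sqrt lam)
            rw [← hdisc]
            refine box_sub hL hρc hρx hρy hρ0 hρm hρM hC hβ hβ1 hβC hA hlam ?_
            have h7 := hX2 j hj.1 hj.2.1
            have h8 := hj.2.2
            have h9 : |x - (p j).1| ≤ 2 * β * dl lam :=
              abs_le.2 ⟨by linarith [h7.1], by linarith [h7.2]⟩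
            have h10 : |y - (p j).2| ≤ β * dl lam :=
              abs_le.2 ⟨by linarith [h8.1], by linarith [h8.2]⟩
            have h11 : 0 < β * dl lam := by positivity
            linarith
          have h7 := Set.ncard_le_ncard h6 (Set.toFinite _)
          rw [Set.ncard_coe_finset] at h7
          exact_mod_cast h7
        rw [← ENNReal.ofReal_natCast]
        exact ENNReal.ofReal_le_ofReal h5
    · gcongr
      exact hG.weak x s hs0
  -- integrate
  have hout : ∑ i ∈ IF, ENNReal.ofReal (2 * β * dl lam) * ENNReal.ofReal (2 * β * dl lam) ≤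
      (ENNReal.ofReal C₁ * ENNReal.ofReal (W / s)) * ENNReal.ofReal (L + 2) := by
    have h1 : ∑ i ∈ IF, ENNReal.ofReal (2 * β * dl lam) * ENNReal.ofReal (2 * β * dl lam) ≤
        ∫⁻ x, ∑ i ∈ IF, (X i).indicator (fun _ => volume (J i)) x := by
      rw [lintegral_finsetSum']
      · refine Finset.sum_le_sum fun i hi => ?_
        rw [lintegral_indicator_const (hX1 i ((hIFmem i).1 hi))]
        refine mul_le_mul' ?_ (hX3 i ((hIFmem i).1 hi))
        rw [hJ]
        simp only [Real.volume_Icc]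
        exact ENNReal.ofReal_le_ofReal (by linarith)
      · intro i hi
        exact (measurable_const.indicator (hX1 i ((hIFmem i).1 hi))).aemeasurable
    refine h1.trans ?_
    refine le_trans (lintegral_mono (g := (Set.Icc (-1 : ℝ) (L + 1)).indicator
      fun _ => ENNReal.ofReal C₁ * ENNReal.ofReal (W / s)) fun x => ?_)
      ((lintegral_indicator_const_le _ _).trans ?_)
    · by_cases hx : x ∈ Set.Icc (-1 : ℝ) (L + 1)
      · rw [Set.indicator_of_mem hx]
        exact hin x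
      · rw [Set.indicator_of_notMem hx]
        refine le_of_eq (Finset.sum_eq_zero fun i hi => ?_)
        refine Set.indicator_of_notMem (fun hxi => hx ?_) _
        have h7 := hX2 i ((hIFmem i).1 hi) hxi
        exact ⟨by linarith [h7.1, (hp1 i).1], by linarith [h7.2, (hp1 i).2]⟩
    · rw [Real.volume_Icc]
      gcongr
      linarith
  rw [Finset.sum_const, nsmul_eq_mul, ← ENNReal.ofReal_mul (by positivity),
    ← ENNReal.ofReal_mul (by positivity), ← ENNReal.ofReal_mul (by positivity),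
    ← ENNReal.ofReal_natCast, ← ENNReal.ofReal_mul (by positivity),
    ENNReal.ofReal_le_ofReal_iff (by positivity)] at hout
  have hcard : ((I.ncard : ℕ) : ℝ) = (IF.card : ℝ) := by
    have : I = (IF : Set ι) := by
      ext i
      simp [hIF]
    rw [this, Set.ncard_coe_finset]
  rw [hcard]
  have h4 : (IF.card : ℝ) * (β ^ 2 * (1 / (1 + lam))) ≤ C₁ * (W / s) * (L + 2) := by
    rw [← dl_sq hlam]
    linarith
  have h5 : C₁ * (W / s) * (L + 2) = (L + 2) * C₁ * W * (2 * D) / (t * Real.log 2) := by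
    rw [hs]
    field_simp
  rw [h5] at h4
  have h6 : (IF.card : ℝ) = (IF.card : ℝ) * (β ^ 2 * (1 / (1 + lam))) * ((1 + lam) / β ^ 2) := by
    field_simp
  rw [h6]
  calc (IF.card : ℝ) * (β ^ 2 * (1 / (1 + lam))) * ((1 + lam) / β ^ 2)
      ≤ ((L + 2) * C₁ * W * (2 * D) / (t * Real.log 2)) * ((1 + lam) / β ^ 2) := by gcongr
    _ = (L + 2) * C₁ * W * (2 * D) * (1 + lam) / (β ^ 2 * (t * Real.log 2)) := by
        field_simp

end count

/-- The weak type bound from the growth function, without a condition on the number of discs. -/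
theorem assembly {ρ : ℝ × ℝ → ℝ} {L α ρm ρM : ℝ} (hL : 0 < L) (hρc : Continuous ρ)
    (hρx : ∀ p : ℝ × ℝ, ρ (p.1 + L, p.2 + α) = ρ p)
    (hρy : ∀ p : ℝ × ℝ, ρ (p.1, p.2 + 2 * π) = ρ p)
    (hρ0 : 0 < ρm) (hρm : ∀ p, ρm ≤ ρ p) (hρM : ∀ p, ρ p ≤ ρM) {C : ℝ} (hC : 0 < C)
    {β A : ℝ} (hβ : 0 < β) (hβ1 : β ≤ 1) (hβC : 8 * β * Real.sqrt ρM ≤ C)
    (hA : 6 * C / Real.sqrt ρm + 3 * L + 6 * π ≤ A)
    {E D W G C₁ : ℝ} (hE : 0 ≤ E) (hD : 0 < D) (hW : 0 ≤ W) (hG0 : 0 ≤ G)
    (hC1 : 0 < C₁) : ∃ a : ℝ, 0 < a ∧ ∀ (lam : ℝ) (φ : ℝ × ℝ → ℝ),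
      Eigen ρ L α lam φ → (∃ Gr : ℝ → ℝ → ℝ, Growth φ lam β A E D W G Gr) →
      ∀ (ι : Type) [Fintype ι] (c : ι → ℝ × ℝ),
        (∀ q : ℝ × ℝ, ∃ i, q ∈ disc ρ L α (c i) (C / Real.sqrt lam)) →
        (∀ q : ℝ × ℝ, ({i | q ∈ disc ρ L α (c i) (C / Real.sqrt lam)}.ncard : ℝ) ≤ C₁) →
        ∀ t : ℝ, 0 < t → (({i | t ≤ doubling ρ L α φ (c i) (C / Real.sqrt lam)}.ncard : ℕ) : ℝ) ≤
          a / t * Fintype.card ι := by
  classical
  have hlog : 0 < Real.log 2 := Real.log_pos one_lt_two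
  obtain ⟨b, hb, hlow⟩ := card_lower (α := α) hL hρc hρ0 hρm hC
  set a1 : ℝ := (L + 2) * C₁ * W * (2 * D) * b / (β ^ 2 * Real.log 2) with ha1
  set T0 : ℝ := 2 * E / Real.log 2 with hT0
  have ha10 : 0 ≤ a1 := by positivity
  have hT00 : 0 ≤ T0 := by positivity
  refine ⟨a1 + T0 + 1, by positivity, ?_⟩
  rintro lam φ hφ ⟨Gr, hG⟩ ι _ c hcov hmult t ht
  have hlam := hφ.pos
  have hcard2 : 1 + lam ≤ b * Fintype.card ι := hlow lam hlam ι c hcov
  have hcard1 : (1 : ℝ) ≤ Fintype.card ι := by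
    obtain ⟨i, -⟩ := hcov (0, 0)
    have : 0 < Fintype.card ι := Fintype.card_pos_iff.2 ⟨i⟩
    exact_mod_cast this
  rcases le_or_gt (2 * E) (t * Real.log 2) with h | h
  · refine (count' hL hρc hρx hρy hρ0 hρm hρM hC hβ hβ1 hβC hA hφ hD hW hG hC1 hmult ht h).trans ?_
    calc (L + 2) * C₁ * W * (2 * D) * (1 + lam) / (β ^ 2 * (t * Real.log 2))
        ≤ (L + 2) * C₁ * W * (2 * D) * (b * Fintype.card ι) /
          (β ^ 2 * (t * Real.log 2)) := by gcongr
      _ = a1 / t * Fintype.card ι := by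
          rw [ha1]
          field_simp
      _ ≤ (a1 + T0 + 1) / t * Fintype.card ι := by
          gcongr
          linarith
  · have h1 : (({i | t ≤ doubling ρ L α φ (c i) (C / Real.sqrt lam)}.ncard : ℕ) : ℝ) ≤
        Fintype.card ι := by
      have := Set.ncard_le_card {i | t ≤ doubling ρ L α φ (c i) (C / Real.sqrt lam)}
      rw [Nat.card_eq_fintype_card] at this
      exact_mod_cast this
    have h2 : 1 ≤ (a1 + T0 + 1) / t := by
      rw [le_div_iff₀ ht, one_mul]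
      have : t < T0 := by
        rw [hT0, lt_div_iff₀ hlog]
        exact h
      linarith
    nlinarith

/-- The weak type bound for metrics that are analytic in one variable. -/
theorem main {ρ : ℝ × ℝ → ℝ} {L α : ℝ} (hL : 0 < L) (hρc : Continuous ρ) (hρpos : ∀ p, 0 < ρ p)
    (hρx : ∀ p : ℝ × ℝ, ρ (p.1 + L, p.2 + α) = ρ p)
    (hρy : ∀ p : ℝ × ℝ, ρ (p.1, p.2 + 2 * π) = ρ p) (hρa : AnalyticInSecond ρ)
    {C C₁ : ℝ} (hC : 0 < C) (hC1 : 0 < C₁) :
    ∃ a : ℝ, 0 < a ∧ ∀ (lam : ℝ) (φ : ℝ × ℝ → ℝ), Eigen ρ L α lam φ →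
      ∀ (ι : Type) [Fintype ι] (c : ι → ℝ × ℝ),
        (∀ q : ℝ × ℝ, ∃ i, q ∈ disc ρ L α (c i) (C / Real.sqrt lam)) →
        (∀ q : ℝ × ℝ, ({i | q ∈ disc ρ L α (c i) (C / Real.sqrt lam)}.ncard : ℝ) ≤ C₁) →
        ∀ t : ℝ, 0 < t → (({i | t ≤ doubling ρ L α φ (c i) (C / Real.sqrt lam)}.ncard : ℕ) : ℝ) ≤
          a / t * Fintype.card ι := by
  obtain ⟨τ, M, F, hτ, hF⟩ := hρa
  obtain ⟨ρm, hρm0, hρm⟩ := bounded_below_of_per hL hρc hρpos hρx hρy
  obtain ⟨ρM, hρM0', hρM'⟩ := bounded_of_per hL hρc hρx hρy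
  have hρM : ∀ p, ρ p ≤ ρM := fun p => (le_abs_self _).trans (hρM' p)
  have hρM0 : 0 < ρM := (hρpos (0, 0)).trans_le (hρM _)
  have hM0 : 0 ≤ M := (norm_nonneg _).trans ((hF 0).2.1 0 (by simpa using hτ))
  obtain ⟨σ, hσ, hσ1, hστ⟩ : ∃ σ : ℝ, 0 < σ ∧ σ ≤ 1 ∧ 4 * σ ≤ τ / 2 := by
    refine ⟨min 1 (τ / 8), lt_min one_pos (by positivity), min_le_left _ _, ?_⟩
    have := min_le_right 1 (τ / 8)
    linarith
  have hdec : ∀ (k : ℤ) (x : ℝ), ‖um (fun x y => ρ (x, y)) k x‖ ≤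
      M * Real.exp (-(4 * σ * |(k : ℝ)|)) := by
    intro k x
    refine (um_decay (ρ := fun x y => ρ (x, y)) hτ (hF x).1 (hF x).2.1 (hF x).2.2
      (fun y => hρy (x, y)) k).trans ?_
    refine mul_le_mul_of_nonneg_left (Real.exp_le_exp.2 ?_) hM0
    nlinarith [abs_nonneg (k : ℝ)]
  obtain ⟨c1, cQ, hc1, hcQ, hctx⟩ := ctx_of_eigen (α := α) hL hρc hρy (fun p => (hρpos p).le) hρM
    hρM0 hσ hσ1 hM0 hdec
  have hsM : 0 < Real.sqrt ρM := Real.sqrt_pos.2 hρM0
  obtain ⟨β, hβ, hβσ, hβC⟩ : ∃ β : ℝ, 0 < β ∧ β ≤ σ / 32 ∧ 8 * β * Real.sqrt ρM ≤ C := by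
    refine ⟨min (σ / 32) (C / (8 * Real.sqrt ρM)), lt_min (by positivity) (by positivity),
      min_le_left _ _, ?_⟩
    have h1 := min_le_right (σ / 32) (C / (8 * Real.sqrt ρM))
    calc 8 * min (σ / 32) (C / (8 * Real.sqrt ρM)) * Real.sqrt ρM
        ≤ 8 * (C / (8 * Real.sqrt ρM)) * Real.sqrt ρM := by gcongr
      _ = C := by
          field_simp
  have hA : 0 ≤ 6 * C / Real.sqrt ρm + 3 * L + 6 * π := by positivity
  obtain ⟨E, D, W, G, hE, hD, hW, hG, hgr⟩ := growth (L := L) (σ := σ) (c1 := c1) (cQ := cQ)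
    (ρM := ρM) (β := β) (A := 6 * C / Real.sqrt ρm + 3 * L + 6 * π) hL hσ hσ1 hc1 hcQ hρM0.le hβ
    hβσ hA
  obtain ⟨a, ha, hfin⟩ := assembly (C₁ := C₁) hL hρc hρx hρy hρm0 hρm hρM hC hβ
    (by linarith) hβC le_rfl hE hD hW hG hC1
  refine ⟨a, ha, fun lam φ hφ ι _ c h1 h2 => hfin lam φ hφ ?_ ι c h1 h2⟩
  obtain ⟨φx, φxx, φy, φyy, hsol⟩ := sol_of_eigen hρc hφ
  obtain ⟨B, hB⟩ := hctx lam φ φx φxx φy φyy hφ hsol
  exact hgr lam B _ _ φx φxx φy φyy _ hφ.pos hB hsol fun x y =>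
    mul_le_mul_of_nonneg_left (hρM _) hφ.pos.le

end Pool.Agent.Y291.PH
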